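import Pool.Agent.Lib.MP_d64ee4_lc.Main

set_option autoImplicit false

/-!
# G-circulant matrices over a finite field are never Valiant-rigid, with a uniform decomposition

Question Q1 of MP_d64ee4_lc asks for a finite field, abelian groups of orders not coprime to the
characteristic and functions on them whose G-circulant matrices form a Valiant-rigid family.

(1) The answer is negative, and no condition on the orders is needed: for every finite field `F`, all
finite abelian groups `G_k` with `|G_k| → ∞`, and all `f_k : G_k → F` the family of the G-circulant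
matrices of the `f_k` is not Valiant-rigid over `F`.

(2) More is true, with a power saving in the rank and with changes in positions which do not depend on
the function. For every finite field `F` and every `ε > 0` there are `C > 0` and `δ > 0` such that for every
finite abelian group `G` of order `N` there are `n₁ + n₂ ≤ C * N ^ (1 - δ)`, a `G × n₁` matrix `Q`, an
`n₂ × G` matrix `Q'`, and a set `P` of positions which has at most `N ^ ε` positions in every row and in
every column, such that for EVERY function `f : G → F` the G-circulant matrix of `f` is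
`Q * X + Y * Q' + S` with some `X`, `Y`, and with `S = 0` outside `P`. So the rank of the matrix becomes at
most `C * N ^ (1 - δ)` if the entries in the positions `P` are changed suitably.
-/

namespace Pool.Agent.Results.MP_d64ee4_lc.UniformDecomposition

open Filter

/-- `M` is `(r, s)`-rigid: every matrix of the same shape over the same field with rank at most
`r` differs from `M` in at least `s` entries. -/
def IsRigid {I J F : Type} [Fintype I] [Fintype J] [Field F] (M : Matrix I J F) (r s : ℝ) : Prop :=
  ∀ A : Matrix I J F, (A.rank : ℝ) ≤ r →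
    s ≤ (({e : I × J | A e.1 e.2 ≠ M e.1 e.2}.ncard : ℕ) : ℝ)

/-- The family `M k` of square matrices (of size `N`, the cardinality of `I k`) is Valiant-rigid:
it contains matrices of arbitrarily large size, and there is `ε > 0` such that for every constant
`c > 0` every sufficiently large member is `(c N / log log N, N ^ (1 + ε))`-rigid. -/
def IsValiantRigid {F : Type} [Field F] {I : ℕ → Type} [∀ k, Fintype (I k)]
    (M : ∀ k, Matrix (I k) (I k) F) : Prop :=
  (∀ B : ℕ, ∃ k, B ≤ Fintype.card (I k)) ∧
  ∃ ε : ℝ, 0 < ε ∧ ∀ c : ℝ, 0 < c → ∃ N₀ : ℕ, ∀ k, N₀ ≤ Fintype.card (I k) →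
    IsRigid (M k)
      (c * (Fintype.card (I k) : ℝ) / Real.log (Real.log (Fintype.card (I k) : ℝ)))
      ((Fintype.card (I k) : ℝ) ^ (1 + ε))

/-- The G-circulant matrix of `f : G → F`, with entries `f (x - y)`. -/
def gCirculant {G F : Type} [AddCommGroup G] (f : G → F) : Matrix G G F :=
  Matrix.of fun x y => f (x - y)

/-- The G-circulant matrices over `F` are low rank plus sparse, uniformly: `Q`, `Q'` and the set `P` of
positions depend on `G` only. `P x` is the set of the positions in the row `x`. -/
def UniformlySparseLowRank (G F : Type) [AddCommGroup G] [Fintype G] [Field F] (r s : ℝ) : Prop :=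
  ∃ (n₁ n₂ : ℕ) (Q : Matrix G (Fin n₁) F) (Q' : Matrix (Fin n₂) G F) (P : G → Set G),
    ((n₁ + n₂ : ℕ) : ℝ) ≤ r ∧
    (∀ x, ((P x).ncard : ℝ) ≤ s) ∧ (∀ y, ({x | y ∈ P x}.ncard : ℝ) ≤ s) ∧
    ∀ f : G → F, ∃ (X : Matrix (Fin n₁) G F) (Y : Matrix G (Fin n₂) F) (S : Matrix G G F),
      gCirculant f = Q * X + Y * Q' + S ∧ ∀ x y, S x y ≠ 0 → y ∈ P x

theorem uniform (F : Type) [Field F] [Fintype F] (ε : ℝ) (hε : 0 < ε) :
    ∃ C δ : ℝ, 0 < C ∧ 0 < δ ∧ ∀ (G : Type) [AddCommGroup G] [Fintype G],
      UniformlySparseLowRank G F (C * (Fintype.card G : ℝ) ^ (1 - δ))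
        ((Fintype.card G : ℝ) ^ ε) := by
  classical
  obtain ⟨C, δ, hC, hδ, h⟩ := Pool.Agent.Lib.MP_d64ee4_lc.structure_thm F ε hε
  refine ⟨C + 1, δ, by positivity, hδ, ?_⟩
  intro G _ _
  have hN0 : (0 : ℝ) < Fintype.card G := by
    exact_mod_cast Fintype.card_pos_iff.mpr ⟨(0 : G)⟩
  obtain ⟨n₁, n₂, Q, Q', P, h2, h3, h4⟩ :=
    (h G).submatrix (id : G → G) (fun y => -y) Function.injective_id neg_injective
  refine ⟨n₁, n₂, Q, Q', fun x => {y | P x y}, ?_, ?_, ?_, ?_⟩
  · refine h2.trans ?_
    have h5 : C * (Fintype.card G : ℝ) * Real.exp (-(δ * Real.log (Fintype.card G))) =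
        C * (Fintype.card G : ℝ) ^ (1 - δ) := by
      rw [Real.rpow_sub hN0, Real.rpow_one, div_eq_mul_inv, ← Real.rpow_neg hN0.le,
        Real.rpow_def_of_pos hN0, mul_assoc]
      congr 3
      ring
    rw [h5]
    have h6 : (0 : ℝ) ≤ (Fintype.card G : ℝ) ^ (1 - δ) := Real.rpow_nonneg hN0.le _
    nlinarith
  · intro x
    show ((({y | P x y} : Set G)).ncard : ℝ) ≤ _
    have h5 := h3.1 x
    have h6 : ({y | P x y} : Set G) = ((Finset.univ.filter fun y => P x y : Finset G) : Set G) := by
      ext y
      simp
    rw [h6, Set.ncard_coe_finset]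
    refine le_trans (le_of_eq ?_) (h5.trans (le_of_eq ?_))
    · congr
    · rw [Real.rpow_def_of_pos hN0, mul_comm]
  · intro y
    show ((({x | P x y} : Set G)).ncard : ℝ) ≤ _
    have h5 := h3.2 y
    have h6 : ({x | P x y} : Set G) =
        ((Finset.univ.filter fun x => P x y : Finset G) : Set G) := by
      ext x
      simp
    rw [h6, Set.ncard_coe_finset]
    refine le_trans (le_of_eq ?_) (h5.trans (le_of_eq ?_))
    · congr
    · rw [Real.rpow_def_of_pos hN0, mul_comm]
  · intro f
    obtain ⟨X, Y, S, h5, h6⟩ := h4 f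
    refine ⟨X, Y, S, ?_, h6⟩
    rw [← h5]
    ext x y
    simp [gCirculant, Pool.Agent.Lib.MP_d64ee4_lc.hank, sub_eq_add_neg]

theorem not_valiantRigid : ∀ (F : Type) [Field F] [Fintype F] (G : ℕ → Type) [∀ k, AddCommGroup (G k)]
    [∀ k, Fintype (G k)] (f : ∀ k, G k → F),
    Tendsto (fun k => Fintype.card (G k)) atTop atTop →
      ¬ IsValiantRigid (fun k => gCirculant (f k)) := by
  classical
  intro F _ _ G _ _ f hG hV
  obtain ⟨_, ε, hε, hrig⟩ := hV
  obtain ⟨N₀, hN₀⟩ := hrig 1 one_pos
  obtain ⟨C, δ, hC, hδ, hdec⟩ :=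
    Pool.Agent.Lib.MP_d64ee4_lc.decomposition F (ε / 2) (by positivity)
  -- eventual inequalities
  have h1 : ∀ᶠ x : ℝ in atTop, C * Real.log x ≤ x ^ δ := by
    have h2 := (isLittleO_log_rpow_atTop hδ).def (c := 1 / (C + 1)) (by positivity)
    filter_upwards [h2, eventually_ge_atTop (1 : ℝ)] with x hx hx1
    have h3 : 0 ≤ Real.log x := Real.log_nonneg hx1
    have h4 : 0 ≤ x ^ δ := Real.rpow_nonneg (by linarith) _
    rw [Real.norm_of_nonneg h3, Real.norm_of_nonneg h4] at hx
    have h5 : (C + 1) * Real.log x ≤ x ^ δ := by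
      have h6 := mul_le_mul_of_nonneg_left hx (by positivity : (0 : ℝ) ≤ C + 1)
      calc (C + 1) * Real.log x ≤ (C + 1) * (1 / (C + 1) * x ^ δ) := h6
        _ = x ^ δ := by field_simp
    nlinarith
  have hcast : Tendsto (fun k => (Fintype.card (G k) : ℝ)) atTop atTop :=
    tendsto_natCast_atTop_atTop.comp hG
  obtain ⟨k, hk1, hk2, hk3⟩ := ((hcast.eventually h1).and
    ((hG.eventually_ge_atTop N₀).and (hcast.eventually_ge_atTop 16))).exists
  set N : ℝ := (Fintype.card (G k) : ℝ) with hN
  have hN0 : 0 < N := by linarith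
  obtain ⟨A, hA1, hA2⟩ := hdec (G k) (f k)
  rw [← hN] at hA1 hA2
  have hlog1 : 1 < Real.log N := by
    rw [Real.lt_log_iff_exp_lt hN0]
    have := Real.exp_one_lt_d9
    linarith
  have hloglog : 0 < Real.log (Real.log N) := Real.log_pos hlog1
  have hloglog2 : Real.log (Real.log N) ≤ Real.log N :=
    (Real.log_le_sub_one_of_pos (by linarith)).trans (by linarith)
  -- rank condition
  have hrank : (A.rank : ℝ) ≤ 1 * N / Real.log (Real.log N) := by
    refine hA1.trans ?_
    rw [one_mul, le_div_iff₀ hloglog, Real.rpow_sub hN0, Real.rpow_one]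
    have hNδ : 0 < N ^ δ := Real.rpow_pos_of_pos hN0 _
    calc C * (N / N ^ δ) * Real.log (Real.log N) ≤ C * (N / N ^ δ) * Real.log N := by
          apply mul_le_mul_of_nonneg_left hloglog2
          positivity
      _ = (C * Real.log N) * (N / N ^ δ) := by ring
      _ ≤ N ^ δ * (N / N ^ δ) := mul_le_mul_of_nonneg_right hk1 (by positivity)
      _ = N := by field_simp
  have hmany := hN₀ k hk2 A hrank
  rw [← hN] at hmany
  -- number of changed entries
  have hfew : (({e : G k × G k | A e.1 e.2 ≠ gCirculant (f k) e.1 e.2}.ncard : ℕ) : ℝ) ≤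
      N * N ^ (ε / 2) := by
    have h7 : {e : G k × G k | A e.1 e.2 ≠ gCirculant (f k) e.1 e.2} =
        ((Finset.univ : Finset (G k)).biUnion (fun x =>
          (Finset.univ.filter fun y => f k (x - y) ≠ A x y).image (fun y => (x, y))) : Set _) := by
      ext ⟨x, y⟩
      simp only [Set.mem_ofPred_eq, gCirculant, Matrix.of_apply, Finset.coe_biUnion,
        Finset.coe_image, Finset.coe_filter, Finset.mem_univ, true_and, Set.mem_iUnion,
        Set.mem_image, Prod.mk.injEq, Finset.coe_univ, Set.mem_univ]
      constructor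
      · intro h
        exact ⟨x, trivial, y, fun h' => h h'.symm, rfl, rfl⟩
      · rintro ⟨a, _, b, hb, rfl, rfl⟩
        exact fun h' => hb h'.symm
    rw [h7, Set.ncard_coe_finset]
    calc (((Finset.univ : Finset (G k)).biUnion (fun x =>
          (Finset.univ.filter fun y => f k (x - y) ≠ A x y).image (fun y => (x, y)))).card : ℝ)
        ≤ ∑ x : G k, (((Finset.univ.filter fun y => f k (x - y) ≠ A x y).image
            (fun y => (x, y))).card : ℝ) := by
          exact_mod_cast Finset.card_biUnion_le
      _ ≤ ∑ _x : G k, N ^ (ε / 2) := by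
          refine Finset.sum_le_sum (fun x _ => ?_)
          have h8 : (((Finset.univ.filter fun y => f k (x - y) ≠ A x y).image
              (fun y => (x, y))).card : ℝ) ≤
              ((Finset.univ.filter fun y => f k (x - y) ≠ A x y).card : ℝ) := by
            exact_mod_cast Finset.card_image_le
          refine h8.trans ?_
          refine le_of_eq_of_le ?_ (hA2.1 x)
          congr
      _ = N * N ^ (ε / 2) := by
          rw [Finset.sum_const, Finset.card_univ, nsmul_eq_mul]
  have hlt : N * N ^ (ε / 2) < N ^ (1 + ε) := by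
    rw [Real.rpow_add hN0, Real.rpow_one]
    apply mul_lt_mul_of_pos_left _ hN0
    exact Real.rpow_lt_rpow_of_exponent_lt (by linarith) (by linarith)
  linarith

/-- (1) For every finite field `F`, every sequence of finite abelian groups `G k` whose orders tend to
infinity (in particular when every order has a common factor with the order of the field), and every
choice of functions `f k : G k → F`, the family of G-circulant matrices of the `f k` is not
Valiant-rigid over `F`. (2) For every finite field `F` and every `ε > 0` there are `C, δ > 0` such that for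
every finite abelian group `G` of order `N` all G-circulant matrices over `F` are `Q * X + Y * Q' + S` with
fixed `Q`, `Q'` of `n₁` columns and `n₂` rows, `n₁ + n₂ ≤ C * N ^ (1 - δ)`, and `S` supported in a fixed set
of positions with at most `N ^ ε` positions in every row and column. -/
theorem result :
    (∀ (F : Type) [Field F] [Fintype F] (G : ℕ → Type) [∀ k, AddCommGroup (G k)]
      [∀ k, Fintype (G k)] (f : ∀ k, G k → F),
      Tendsto (fun k => Fintype.card (G k)) atTop atTop →
        ¬ IsValiantRigid (fun k => gCirculant (f k))) ∧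
    (∀ (F : Type) [Field F] [Fintype F] (ε : ℝ), 0 < ε →
      ∃ C δ : ℝ, 0 < C ∧ 0 < δ ∧ ∀ (G : Type) [AddCommGroup G] [Fintype G],
        UniformlySparseLowRank G F (C * (Fintype.card G : ℝ) ^ (1 - δ))
          ((Fintype.card G : ℝ) ^ ε)) :=
  ⟨not_valiantRigid, fun F _ _ ε hε => uniform F ε hε⟩

end Pool.Agent.Results.MP_d64ee4_lc.UniformDecomposition
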